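import Pool.Agent.TH983.FC.Orb
import Pool.Agent.TH773.ST.ComT

/-! Six-vertex flags: a bonus term for the structures with a given number of edges and a slack for all
structures which are not isomorphic to a subgraph of Turán's construction. -/

set_option autoImplicit false
set_option maxRecDepth 100000
set_option maxHeartbeats 4000000
open Finset

namespace Pool.Agent.Y850.FA
open Pool.Agent.H122R2.N6 Pool.Agent.H37R3.Pen Pool.Agent.H37R3.Cop Pool.Agent.H37R3.CopL
open Pool.Agent.TH983.FC Pool.Agent.TH773.ST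

/-- the number of edges -/
def cnt (b012 b013 b023 b123 b014 b024 b124 b034 b134 b234 b015 b025 b125 b035 b135 b235 b045 b145 b245 b345 : ℕ) : ℕ :=
  (Nat.add (Nat.add (Nat.add (Nat.add (Nat.add (Nat.add (Nat.add (Nat.add (Nat.add (Nat.add (Nat.add (Nat.add (Nat.add (Nat.add (Nat.add (Nat.add (Nat.add (Nat.add (Nat.add b012 b013) b023) b123) b014) b024) b124) b034) b134) b234) b015) b025) b125) b035) b135) b235) b045) b145) b245) b345)

/-- the comparison at a leaf with value `v` -/
def fin1 (C P s : ℕ) (m6 mT : Bool) (v : ℕ) : Bool :=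
  cond m6 (and mT (Nat.ble (Nat.add v P) C)) (or (Nat.ble (Nat.add v s) C) (and mT (Nat.ble v C)))

/-- the leaf inequality with a bonus `P` on the structures with `M` edges and a slack `s` for the
structures not in `LT` -/
def chkW (q4 : ℕ → ℕ → ℕ → ℕ) (q2 : ℕ → ℕ → ℕ) (C P s M : ℕ) (LT : List ℕ) (b012 b013 b023 b123 b014 b024 b124 b034 b134 b234 : ℕ) : Bool :=
  B2 fun b015 => B2 fun b025 => B2 fun b125 => or (k4b b012 b015 b025 b125) (B2 fun b035 => B2 fun b135 => or (k4b b013 b015 b035 b135) (B2 fun b235 => or (k4b b023 b025 b035 b235) (or (k4b b123 b125 b135 b235) (B2 fun b045 => B2 fun b145 => or (k4b b014 b015 b045 b145) (B2 fun b245 => or (k4b b024 b025 b045 b245) (or (k4b b124 b125 b145 b245) (B2 fun b345 => or (k4b b034 b035 b045 b345) (or (k4b b134 b135 b145 b345) (or (k4b b234 b235 b245 b345) (fin1 C P s (Nat.beq (cnt b012 b013 b023 b123 b014 b024 b124 b034 b134 b234 b015 b025 b125 b035 b135 b235 b045 b145 b245 b345) M) (mem LT b012 b013 b023 b123 b014 b024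 b124 b034 b134 b234 b015 b025 b125 b035 b135 b235 b045 b145 b245 b345) (Nat.add (leaf4 q4 b012 b013 b023 b123 b014 b024 b124 b034 b134 b234 b015 b025 b125 b035 b135 b235 b045 b145 b245 b345) (leaf2 q2 b012 b013 b023 b123 b014 b024 b124 b034 b134 b234 b015 b025 b125 b035 b135 b235 b045 b145 b245 b345))))))))))))

section
variable {V : Type} {E : V → V → V → ℕ}

/-- indicator of the six-tuples with `M` edges -/
noncomputable def XM (E : V → V → V → ℕ) (M : ℕ) (a b c d e f : V) : ℕ :=
  if cnt (E a b c) (E a b d) (E a c d) (E b c d) (E a b e) (E a c e) (E b c e) (E a d e) (E b d e) (E c d e) (E a b f) (E a c f) (E b c f) (E a d f) (E b d f) (E c d f) (E a e f) (E b e f) (E c e f) (E d e f) = M then 1 else 0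

theorem cnt_0 (hE : Sy E) (a b c d e f : V) : cnt (E b a c) (E b a d) (E b c d) (E a c d) (E b a e) (E b c e) (E a c e) (E b d e) (E a d e) (E c d e) (E b a f) (E b c f) (E a c f) (E b d f) (E a d f) (E c d f) (E b e f) (E a e f) (E c e f) (E d e f) = cnt (E a b c) (E a b d) (E a c d) (E b c d) (E a b e) (E a c e) (E b c e) (E a d e) (E b d e) (E c d e) (E a b f) (E a c f) (E b c f) (E a d f) (E b d f) (E c d f) (E a e f) (E b e f) (E c e f) (E d e f) := by
  unfold cnt
  simp only [hE.h213 a b c, hE.h213 a b d, hE.h213 a b e, hE.h213 a b f, Nat.add_eq]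
  omega

theorem cnt_1 (hE : Sy E) (a b c d e f : V) : cnt (E a c b) (E a c d) (E a b d) (E c b d) (E a c e) (E a b e) (E c b e) (E a d e) (E c d e) (E b d e) (E a c f) (E a b f) (E c b f) (E a d f) (E c d f) (E b d f) (E a e f) (E c e f) (E b e f) (E d e f) = cnt (E a b c) (E a b d) (E a c d) (E b c d) (E a b e) (E a c e) (E b c e) (E a d e) (E b d e) (E c d e) (E a b f) (E a c f) (E b c f) (E a d f) (E b d f) (E c d f) (E a e f) (E b e f) (E c e f) (E d e f) := by
  unfold cnt
  simp only [hE.h132 a b c, hE.h213 b c d, hE.h213 b c e, hE.h213 b c f, Nat.add_eq]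
  omega

theorem cnt_2 (hE : Sy E) (a b c d e f : V) : cnt (E a b d) (E a b c) (E a d c) (E b d c) (E a b e) (E a d e) (E b d e) (E a c e) (E b c e) (E d c e) (E a b f) (E a d f) (E b d f) (E a c f) (E b c f) (E d c f) (E a e f) (E b e f) (E d e f) (E c e f) = cnt (E a b c) (E a b d) (E a c d) (E b c d) (E a b e) (E a c e) (E b c e) (E a d e) (E b d e) (E c d e) (E a b f) (E a c f) (E b c f) (E a d f) (E b d f) (E c d f) (E a e f) (E b e f) (E c e f) (E d e f) := by
  unfold cnt
  simp only [hE.h132 a c d, hE.h132 b c d, hE.h213 c d e, hE.h213 c d f, Nat.add_eq]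
  omega

theorem cnt_3 (hE : Sy E) (a b c d e f : V) : cnt (E a b c) (E a b e) (E a c e) (E b c e) (E a b d) (E a c d) (E b c d) (E a e d) (E b e d) (E c e d) (E a b f) (E a c f) (E b c f) (E a e f) (E b e f) (E c e f) (E a d f) (E b d f) (E c d f) (E e d f) = cnt (E a b c) (E a b d) (E a c d) (E b c d) (E a b e) (E a c e) (E b c e) (E a d e) (E b d e) (E c d e) (E a b f) (E a c f) (E b c f) (E a d f) (E b d f) (E c d f) (E a e f) (E b e f) (E c e f) (E d e f) := by
  unfold cnt
  simp only [hE.h132 a d e, hE.h132 b d e, hE.h132 c d e, hE.h213 d e f, Nat.add_eq]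
  omega

theorem XM_0 (hE : Sy E) (M : ℕ) (a b c d e f : V) : XM E M b a c d e f = XM E M a b c d e f := by
  unfold XM
  rw [cnt_0 hE]
theorem XM_1 (hE : Sy E) (M : ℕ) (a b c d e f : V) : XM E M a c b d e f = XM E M a b c d e f := by
  unfold XM
  rw [cnt_1 hE]
theorem XM_2 (hE : Sy E) (M : ℕ) (a b c d e f : V) : XM E M a b d c e f = XM E M a b c d e f := by
  unfold XM
  rw [cnt_2 hE]
theorem XM_3 (hE : Sy E) (M : ℕ) (a b c d e f : V) : XM E M a b c e d f = XM E M a b c d e f := by
  unfold XM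
  rw [cnt_3 hE]

/-- the bonus and the slack -/
noncomputable def ZZ (E : V → V → V → ℕ) (M : ℕ) (MT : List ℕ) (P s : ℕ) (a b c d e f : V) : ℕ :=
  P * XM E M a b c d e f + s * (1 - XL6 E MT a b c d e f)

theorem fin1_sound {C P s v : ℕ} {m6 mT : Bool} {x y : ℕ} (hx1 : m6 = true → x = 1)
    (hx0 : m6 = false → x = 0) (hT : mT = true → y = 1)
    (h : fin1 C P s m6 mT v = true) : v + 1 * (P * x + s * (1 - y)) ≤ C := by
  unfold fin1 at h
  cases m6 with
  | true =>
    change (and mT (Nat.ble (Nat.add v P) C)) = true at h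
    rw [Bool.and_eq_true] at h
    have h1 : v + P ≤ C := Nat.le_of_ble_eq_true h.2
    rw [hx1 rfl, hT h.1]
    simp only [Nat.sub_self, mul_zero, add_zero, one_mul, mul_one]
    exact h1
  | false =>
    rw [hx0 rfl, mul_zero, zero_add, one_mul]
    change (or (Nat.ble (Nat.add v s) C) (and mT (Nat.ble v C))) = true at h
    rw [Bool.or_eq_true, Bool.and_eq_true] at h
    rcases h with h | h
    · have h1 : v + s ≤ C := Nat.le_of_ble_eq_true h
      have h2 : s * (1 - y) ≤ s := by
        calc s * (1 - y) ≤ s * 1 := Nat.mul_le_mul_left _ (Nat.sub_le _ _)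
          _ = s := mul_one _
      omega
    · have h1 : v ≤ C := Nat.le_of_ble_eq_true h.2
      rw [hT h.1, Nat.sub_self, mul_zero, add_zero]
      exact h1

theorem leafW_all (hE : Sy E) (hK : NoK4 E) {q4 : ℕ → ℕ → ℕ → ℕ} {q2 : ℕ → ℕ → ℕ} {C P s M : ℕ}
    {LT MT : List ℕ} {TT : List (ℕ × ℕ × ℕ)} (iT : isoM LT TT MT = true)
    (hs4 : sym4 q4 = true) (hs2 : sym2 q2 = true)
    (hc : ∀ b012 b013 b023 b123 b014 b024 b124 b034 b134 b234 : ℕ, Bt b012 → Bt b013 → Bt b023 → Bt b123 → Bt b014 → Bt b024 → Bt b124 → Bt b034 → Bt b134 → Bt b234 → tg b012 b013 b023 b123 b014 b024 b124 b034 b134 b234 = 4 → chkW q4 q2 C P s M LT b012 b013 b023 b123 b014 b024 b124 b034 b134 b234 = true)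
    (a b c d e f : V) : L4 E q4 a b c d e f + L2 E q2 a b c d e f + 1 * ZZ E M MT P s a b c d e f ≤ C := by
  have h := (B2_true (B2_true (B2_true (B2_true (B2_true (B2_true (B2_true (B2_true (B2_true (B2_true walk_all (hE.b a b c)) (hE.b a b d)) (hE.b a c d)) (hE.b b c d)) (hE.b a b e)) (hE.b a c e)) (hE.b b c e)) (hE.b a d e)) (hE.b b d e)) (hE.b c d e))
  have h5 : five (E a b c) (E a b d) (E a c d) (E b c d) (E a b e) (E a c e) (E b c e) (E a d e) (E b d e) (E c d e) = false := by
    unfold five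
    rw [hK a b c d, hK a b c e, hK a b d e, hK a c d e, hK b c d e]
    rfl
  have hw := or_false_left h h5
  refine walk_goodZ hE (X := ZZ E M MT P s) (fun a b c d e f => by simp only [ZZ, XL6_0, XM_0 hE])
    (fun a b c d e f => by simp only [ZZ, XL6_1, XM_1 hE])
    (fun a b c d e f => by simp only [ZZ, XL6_2, XM_2 hE])
    (fun a b c d e f => by simp only [ZZ, XL6_3, XM_3 hE]) hs4 hs2 ?_ _ _ _ _ _ _ _ _ _ _ _ hw
    a b c d e f rfl rfl rfl rfl rfl rfl rfl rfl rfl rfl
  intro b012 b013 b023 b123 b014 b024 b124 b034 b134 b234 ht a b c d e f h0 h1 h2 h3 h4 h5 h6 h7 h8 h9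
  subst h0 h1 h2 h3 h4 h5 h6 h7 h8 h9
  have h := hc _ _ _ _ _ _ _ _ _ _ (hE.b _ _ _) (hE.b _ _ _) (hE.b _ _ _) (hE.b _ _ _) (hE.b _ _ _) (hE.b _ _ _) (hE.b _ _ _) (hE.b _ _ _) (hE.b _ _ _) (hE.b _ _ _) ht
  have h1 := (or_false_left (or_false_left (or_false_left (B2_true (or_false_left (or_false_left (B2_true (or_false_left (B2_true (B2_true (or_false_left (or_false_left (B2_true (or_false_left (B2_true (B2_true (or_false_left (B2_true (B2_true (B2_true h (hE.b a b f)) (hE.b a c f)) (hE.b b c f)) (hK a b c f)) (hE.b a d f)) (hE.b b d f)) (hK a b d f)) (hE.b c d f)) (hK a c d f)) (hK b c d f)) (hE.b a e f)) (hE.b b e f)) (hK a b e f)) (hE.b c e f)) (hK a c e f)) (hK b c e f)) (hE.b d e f)) (hK a d e f)) (hK b d e f)) (hK c d e f))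
  have h2 := fin1_sound (x := XM E M a b c d e f) (fun h => if_pos (Nat.eq_of_beq_eq_true h))
    (fun h => if_neg (Nat.ne_of_beq_eq_false h)) (hmemL_of hE iT a b c d e f) h1
  have h3 : K4l E q4 a b c d e f + K2l E q2 a b c d e f + 1 * ZZ E M MT P s a b c d e f ≤ C := h2
  rwa [K4l_eq E q4 hE.h132 hE.h231 hE.h213 hE.h312, K2l_eq E q2 hE.h132 hE.h231 hE.h213 hE.h312] at h3

end

section
variable {V : Type} [Fintype V] {E : V → V → V → ℕ}

/-- the number of six-tuples that do not follow the rule of Turán's construction -/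
theorem NT_le (hE : Sy E) : NT E ≤ ∑ x : Fin 6 → V, (1 - XL E MT x) := by
  unfold NT
  rw [card_filter]
  refine sum_le_sum fun x _ => ?_
  by_cases h : TT E x
  · rw [if_neg (not_not.mpr h)]
    exact Nat.zero_le _
  · rw [if_pos h]
    unfold XL
    rw [if_neg fun h1 => h (TT_of_rel hE h1)]

end
end Pool.Agent.Y850.FA
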