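import Pool.Agent.H122R2.N6.Bound2
import Pool.Agent.H37R3.K5.Free

/-! From a bound for a function of the number of edges at a pair (four random further vertices) to
a bound for the average of a quartic polynomial of the codegree density. -/

set_option autoImplicit false
set_option maxRecDepth 100000
set_option maxHeartbeats 4000000
open Finset

namespace Pool.Agent.Y850.FA
open Pool.Agent.H122R2.N6

section
variable {V : Type} [Fintype V] (E : V → V → V → ℕ)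

theorem avgQ (hE : Sy E) (t : ℕ → ℤ) (A0 A1 A2 A3 A4 R : ℤ)
    (h0 : t 0 = A0) (h1 : t 1 = A0 + A1) (h2 : t 2 = A0 + 2 * A1 + A2)
    (h3 : t 3 = A0 + 3 * A1 + 3 * A2 + A3) (h4 : t 4 = A0 + 4 * A1 + 6 * A2 + 4 * A3 + A4)
    (hb : 45 * T2 E t ≤ R * (Fintype.card V : ℤ) ^ 6) (f : ℝ → ℝ) (O K c : ℝ) (hK : 0 < K)
    (hpoly : ∀ d : ℝ, 45 * ((A0 : ℝ) + 4 * A1 * d + 6 * A2 * d ^ 2 + 4 * A3 * d ^ 3 + A4 * d ^ 4)
      = O + K * f d) (hR : (R : ℝ) = O + K * c) (hn : 0 < Fintype.card V) :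
    ∑ a, ∑ b, f (dn E a b) ≤ c * (Fintype.card V : ℝ) ^ 2 := by
  have hn' : (0 : ℝ) < (Fintype.card V : ℝ) := by exact_mod_cast hn
  have e1 : T2 E t = ∑ a, ∑ b, (A0 * (Fintype.card V : ℤ) ^ 4
      + 4 * A1 * (Fintype.card V : ℤ) ^ 3 * (∑ c, (E a b c : ℤ))
      + 6 * A2 * (Fintype.card V : ℤ) ^ 2 * (∑ c, (E a b c : ℤ)) ^ 2
      + 4 * A3 * (Fintype.card V : ℤ) * (∑ c, (E a b c : ℤ)) ^ 3 + A4 * (∑ c, (E a b c : ℤ)) ^ 4) := by
    unfold T2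
    exact sum_congr rfl fun a _ => sum_congr rfl fun b _ =>
      mom (E a b) (hE.b a b) t A0 A1 A2 A3 A4 h0 h1 h2 h3 h4
  rw [e1] at hb
  have hb' : (45 : ℝ) * ∑ a, ∑ b, ((A0 : ℝ) * (Fintype.card V : ℝ) ^ 4
      + 4 * A1 * (Fintype.card V : ℝ) ^ 3 * (∑ c, (E a b c : ℝ))
      + 6 * A2 * (Fintype.card V : ℝ) ^ 2 * (∑ c, (E a b c : ℝ)) ^ 2
      + 4 * A3 * (Fintype.card V : ℝ) * (∑ c, (E a b c : ℝ)) ^ 3 + A4 * (∑ c, (E a b c : ℝ)) ^ 4)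
      ≤ R * (Fintype.card V : ℝ) ^ 6 := by exact_mod_cast hb
  have e2 : (45 : ℝ) * ∑ a, ∑ b, ((A0 : ℝ) * (Fintype.card V : ℝ) ^ 4
      + 4 * A1 * (Fintype.card V : ℝ) ^ 3 * (∑ c, (E a b c : ℝ))
      + 6 * A2 * (Fintype.card V : ℝ) ^ 2 * (∑ c, (E a b c : ℝ)) ^ 2
      + 4 * A3 * (Fintype.card V : ℝ) * (∑ c, (E a b c : ℝ)) ^ 3 + A4 * (∑ c, (E a b c : ℝ)) ^ 4)
      = (Fintype.card V : ℝ) ^ 4 * (O * (Fintype.card V : ℝ) ^ 2 + K * ∑ a, ∑ b, f (dn E a b)) := by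
    have e0 : O * (Fintype.card V : ℝ) ^ 2 + K * ∑ a, ∑ b, f (dn E a b) =
        ∑ a : V, ∑ b : V, (O + K * f (dn E a b)) := by
      simp only [sum_add_distrib, ← mul_sum, sum_const, card_univ, nsmul_eq_mul]
      ring
    rw [e0, mul_sum, mul_sum]
    refine sum_congr rfl fun a _ => ?_
    rw [mul_sum, mul_sum]
    refine sum_congr rfl fun b _ => ?_
    have e3 : (∑ c, (E a b c : ℝ)) = dn E a b * (Fintype.card V : ℝ) := by
      unfold dn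
      field_simp
    rw [e3, ← hpoly (dn E a b)]
    ring
  rw [e2, hR] at hb'
  have h5 : (Fintype.card V : ℝ) ^ 4 * (K * ∑ a, ∑ b, f (dn E a b))
      ≤ (Fintype.card V : ℝ) ^ 4 * (K * (c * (Fintype.card V : ℝ) ^ 2)) := by
    have e6 : (Fintype.card V : ℝ) ^ 4 * (O * (Fintype.card V : ℝ) ^ 2 + K * ∑ a, ∑ b, f (dn E a b))
        = (Fintype.card V : ℝ) ^ 4 * (K * ∑ a, ∑ b, f (dn E a b)) + O * (Fintype.card V : ℝ) ^ 6 := by
      ring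
    have e7 : (O + K * c) * (Fintype.card V : ℝ) ^ 6 =
        (Fintype.card V : ℝ) ^ 4 * (K * (c * (Fintype.card V : ℝ) ^ 2)) + O * (Fintype.card V : ℝ) ^ 6 := by
      ring
    rw [e6, e7] at hb'
    linarith
  have h6 := le_of_mul_le_mul_left h5 (by positivity)
  exact le_of_mul_le_mul_left h6 hK

theorem expand (s : Finset ℕ) (w u v : ℕ → ℕ) (B : ℤ) :
    ∑ k ∈ s, (w k : ℤ) * ((u k : ℤ) - B) * ((v k : ℤ) - B) =
      ∑ k ∈ s, (w k : ℤ) * ((u k : ℤ) * (v k : ℤ)) + B ^ 2 * ∑ k ∈ s, (w k : ℤ)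
        - B * (∑ k ∈ s, (w k : ℤ) * (u k : ℤ) + ∑ k ∈ s, (w k : ℤ) * (v k : ℤ)) := by
  rw [mul_add, mul_sum, mul_sum, mul_sum, ← sum_add_distrib, ← sum_add_distrib, ← sum_sub_distrib]
  exact sum_congr rfl fun k _ => by ring

end
end Pool.Agent.Y850.FA
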