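import Pool.Agent.Y850.FA.T6Part

set_option autoImplicit false
set_option maxRecDepth 100000

namespace Pool.Agent.Y850.FA.T6

theorem part01 : part 0 1 = true := by decide +kernel

end Pool.Agent.Y850.FA.T6
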