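import Pool.Agent.Y850.FA.T6Tab
import Pool.Agent.Y850.FA.Chw

set_option autoImplicit false
set_option maxRecDepth 100000

namespace Pool.Agent.Y850.FA.T6

open Pool.Agent.H122R2.N6 Pool.Agent.H37R3.Pen Pool.Agent.TH773.ST Pool.Agent.Y850.FA

def BON : ℕ := 208735410585600

def SLK : ℕ := 1736988157028

def part (b012 b013 : ℕ) : Bool := B2 fun b023 => B2 fun b123 => B2 fun b014 => B2 fun b024 => B2 fun b124 => B2 fun b034 => B2 fun b134 => B2 fun b234 => or (not (Nat.beq (tg b012 b013 b023 b123 b014 b024 b124 b034 b134 b234) 4)) (chkW q4 q2 CST BON SLK 14 LT b012 b013 b023 b123 b014 b024 b124 b034 b134 b234)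

end Pool.Agent.Y850.FA.T6
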