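import Pool.Agent.Y850.FA.T7Part00
import Pool.Agent.Y850.FA.T7Part01
import Pool.Agent.Y850.FA.T7Part10
import Pool.Agent.Y850.FA.T7Part11
import Pool.Agent.Y850.FA.T7Psd
import Pool.Agent.Y850.FA.Pol

set_option autoImplicit false
set_option maxRecDepth 100000
set_option maxHeartbeats 4000000
open Finset

namespace Pool.Agent.Y850.FA.T7
open Pool.Agent.H122R2.N6 Pool.Agent.H37R3.Pen Pool.Agent.H37R3.Cop Pool.Agent.H37R3.CopL
open Pool.Agent.TH983.FC Pool.Agent.TH773.ST Pool.Agent.Y850.FA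

theorem hc (b012 b013 b023 b123 b014 b024 b124 b034 b134 b234 : ℕ) (hb012 : Bt b012) (hb013 : Bt b013) (hb023 : Bt b023) (hb123 : Bt b123) (hb014 : Bt b014) (hb024 : Bt b024) (hb124 : Bt b124) (hb034 : Bt b034) (hb134 : Bt b134) (hb234 : Bt b234) (ht : tg b012 b013 b023 b123 b014 b024 b124 b034 b134 b234 = 4) :
    chkW q4 q2 CST BON SLK 14 LT b012 b013 b023 b123 b014 b024 b124 b034 b134 b234 = true := by
  have h : part b012 b013 = true := by
    rcases hb012 with rfl | rfl <;> rcases hb013 with rfl | rfl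
    exacts [part00, part01, part10, part11]
  have h2 := (B2_true (B2_true (B2_true (B2_true (B2_true (B2_true (B2_true (B2_true h hb023) hb123) hb014) hb024) hb124) hb034) hb134) hb234)
  refine or_false_left h2 ?_
  rw [ht]
  rfl

theorem rng : (nall 16 fun c => and (Nat.blt (rho c) 5) (nall 64 fun i => Nat.blt (pc c i) 64)) = true := by
  decide +kernel

theorem rho_lt {c : ℕ} (h : c < 16) : rho c < 5 := by
  have := nall_true rng c h
  rw [Bool.and_eq_true] at this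
  exact Nat.le_of_ble_eq_true this.1

theorem pc_lt {c i : ℕ} (h : c < 16) (hi : i < 64) : pc c i < 64 := by
  have := nall_true rng c h
  rw [Bool.and_eq_true] at this
  exact Nat.le_of_ble_eq_true (nall_true this.2 i hi)

theorem g4_all {r i j : ℕ} (hr : r < 5) (hi : i < 64) (hj : j < 64) : g4 r i j = true := by
  have h : chk4 r = true := by
    interval_cases r
    exacts [cp0, cp1, cp2, cp3, cp4]
  exact nall_true (nall_true h i hi) j hj

theorem hq4 (c i j : ℕ) (hc : c < 16) (hi : i < 64) (hj : j < 64) : (q4 c i j : ℤ) =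
    ∑ k ∈ range 79, (w4 (rho c) k : ℤ) * ((l4 (rho c) (pc c i) k : ℤ) - 8192) *
      ((l4 (rho c) (pc c j) k : ℤ) - 8192) + 35184372088832 := by
  have h := Nat.eq_of_beq_eq_true (g4_all (rho_lt hc) (pc_lt hc hi) (pc_lt hc hj))
  unfold ll sw sl at h
  rw [nsum_eq, nsum_eq, nsum_eq, nsum_eq] at h
  have h2 := congrArg (fun n : ℕ => (n : ℤ)) h
  simp only [Nat.add_eq, Nat.mul_eq] at h2
  push_cast at h2
  rw [expand (range 79) (fun k => w4 (rho c) k) (fun k => l4 (rho c) (pc c i) k)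
    (fun k => l4 (rho c) (pc c j) k) 8192]
  have h3 : (q4 c i j : ℤ) = (tq (rho c) (pc c i) (pc c j) : ℤ) := rfl
  rw [h3]
  linarith

theorem t2_eq : ∀ k : Fin 5, ((t2 k.val : ℕ) : ℤ) = 8796093022208 + (128849018880) * ((k.val : ℕ) : ℤ) := by
  decide +kernel

theorem kk_lt : ∀ i j : Fin 16, kk i.val j.val < 5 := by decide +kernel

theorem hq2 (i j : ℕ) (hi : i < 16) (hj : j < 16) : (q2 i j : ℤ) =
    ∑ k ∈ range 13, (w2 k : ℤ) * ((l2 i k : ℤ) - 8192) * ((l2 j k : ℤ) - 8192)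
      + (8796093022208 + (128849018880) * ((kk i j : ℕ) : ℤ)) := by
  have h := Nat.eq_of_beq_eq_true (nall_true (nall_true cpb i hi) j hj)
  unfold ll2 sw2 sl2 at h
  rw [nsum_eq, nsum_eq, nsum_eq, nsum_eq] at h
  have h2 := congrArg (fun n : ℕ => (n : ℤ)) h
  simp only [Nat.add_eq, Nat.mul_eq] at h2
  push_cast at h2
  rw [expand (range 13) (fun k => w2 k) (fun k => l2 i k) (fun k => l2 j k) 8192]
  have h3 := t2_eq ⟨kk i j, kk_lt ⟨i, hi⟩ ⟨j, hj⟩⟩
  simp only at h3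
  linarith

/-- the inequality of the certificate -/
theorem main {V : Type} [Fintype V] {E : V → V → V → ℕ} (hE : Sy E) (hK : NoK4 E) :
    208735410585600 * (∑ x : Fin 6 → V, (XM E 14 (x 0) (x 1) (x 2) (x 3) (x 4) (x 5) : ℤ)) + 2780769271758 * (NT E : ℤ) ≤
      38654705664000 * (Fintype.card V : ℤ) ^ 6 +
        -23192823398400 * ((Fintype.card V : ℤ) ^ 3 * ∑ a, ∑ b, ∑ c, (E a b c : ℤ)) := by
  have hb := boundZ E hE 79 13 CST 1 (ZZ E 14 MT BON SLK) q4
    (fun c k => w4 (rho c) k) (fun c i k => l4 (rho c) (pc c i) k)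
    q2 w2 l2 8192 35184372088832 8796093022208 (fun k => (128849018880) * (k : ℤ)) hq4 hq2
    (leafW_all hE hK isoT cs4 cs2 hc)
  rw [T2_lin E hE] at hb
  have hZ : ∀ x : Fin 6 → V, ((ZZ E 14 MT BON SLK (x 0) (x 1) (x 2) (x 3) (x 4) (x 5) : ℕ) : ℤ) =
      (BON : ℤ) * (XM E 14 (x 0) (x 1) (x 2) (x 3) (x 4) (x 5) : ℤ) + (SLK : ℤ) * ((1 - XL E MT x : ℕ) : ℤ) := by
    intro x
    unfold ZZ
    rw [XL_eq]
    push_cast
    rfl
  simp only [hZ] at hb
  rw [sum_add_distrib, ← mul_sum, ← mul_sum] at hb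
  have h1 : ((NT E : ℕ) : ℤ) ≤ ∑ x : Fin 6 → V, ((1 - XL E MT x : ℕ) : ℤ) := by
    exact_mod_cast NT_le hE
  have hC : (CST : ℤ) = 962244472995840 := rfl
  have hB : (BON : ℤ) = 208735410585600 := rfl
  have hS : (SLK : ℤ) = 2780769271758 := rfl
  rw [hC, hB, hS, Nat.cast_one, one_mul] at hb
  generalize (∑ x : Fin 6 → V, (XM E 14 (x 0) (x 1) (x 2) (x 3) (x 4) (x 5) : ℤ)) = X at hb ⊢
  generalize (∑ x : Fin 6 → V, ((1 - XL E MT x : ℕ) : ℤ)) = Y at hb h1
  generalize (∑ a, ∑ b, ∑ c, (E a b c : ℤ)) = S at hb ⊢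
  linarith

end Pool.Agent.Y850.FA.T7
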