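import Pool.Agent.Y850.FA.T6Fin
import Pool.Agent.Y850.FA.T7Fin
import Pool.Agent.TH773.CL.Fin

/-! The number of six-element vertex sets with 14 edges in `K_4^3`-free 3-graphs: bound and stability. -/

set_option autoImplicit false
set_option maxRecDepth 100000
set_option maxHeartbeats 4000000
open Finset
open scoped Classical

namespace Pool.Agent.Y850.FA
open Pool.Agent.H122R2.N6 Pool.Agent.H37R3.Pen Pool.Agent.H37R3.Cop Pool.Agent.H37R3.CopL
open Pool.Agent.TH983.FC Pool.Agent.TH773.ST Pool.Agent.TH773.CL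

section
variable {V : Type} [Fintype V] {E : V → V → V → ℕ}

/-- stability, in terms of functions, with an arbitrary error term -/
theorem stabY (hE : Sy E) (hK : NoK4 E) {Y : ℕ}
    (h : 1800 * (Fintype.card V ^ 3 * (∑ a, ∑ b, ∑ c, E a b c)) + NT E ≤
      1000 * Fintype.card V ^ 6 + Y) :
    ∃ g : V → Fin 3, Fintype.card V ^ 3 * bad E g +
      1161216000 * (Fintype.card V ^ 3 * (∑ a, ∑ b, ∑ c, E a b c)) ≤
      645120000 * Fintype.card V ^ 6 + 645120 * Y := by
  obtain ⟨g, hg⟩ := exists_col (E := E)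
  refine ⟨g, ?_⟩
  have h1 := seeds_card hE hK
  have hb := bad_le (E := E) g
  rw [mul_assoc] at h1
  generalize (∑ a, ∑ b, ∑ c, E a b c) = S at h h1 ⊢
  generalize bad E g = b at hg hb ⊢
  generalize (Seeds E).card = q at hg h1
  generalize NT E = N at hg h
  generalize Fintype.card V = n at hg h h1 hb ⊢
  by_cases hc : n ^ 3 * S * 1000 ≤ 550 * n ^ 6
  · have h2 : n ^ 3 * b ≤ n ^ 6 := by
      calc n ^ 3 * b ≤ n ^ 3 * n ^ 3 := Nat.mul_le_mul_left _ hb
        _ = n ^ 6 := by ring
    generalize n ^ 3 * b = B at h2 ⊢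
    generalize n ^ 3 * S = Y at h hc ⊢
    generalize n ^ 6 = W at h hc h2 ⊢
    omega
  · push Not at hc
    rcases Nat.eq_zero_or_pos n with hn | hn
    · subst hn
      simp only [Nat.zero_pow (n := 3) (by norm_num), Nat.zero_pow (n := 6) (by norm_num), zero_mul, mul_zero, lt_irrefl] at hc
    have h3 : 5 * n ^ 6 < 460800 * (q * n) := by
      generalize n ^ 3 * S = Y at hc h1
      generalize n ^ 6 = W at hc h1 ⊢
      generalize q * n = Z at h1 ⊢
      omega
    have h4 : 5 * n ^ 5 ≤ 460800 * q := by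
      have h5 : (5 * n ^ 5) * n ≤ (460800 * q) * n := by
        calc (5 * n ^ 5) * n = 5 * n ^ 6 := by ring
          _ ≤ 460800 * (q * n) := h3.le
          _ = (460800 * q) * n := by ring
      exact Nat.le_of_mul_le_mul_right h5 hn
    have h6 : n ^ 3 * b ≤ 645120 * N := by
      have h7 : (5 * n ^ 5) * b ≤ 460800 * (7 * (N * n ^ 2)) := by
        calc (5 * n ^ 5) * b ≤ (460800 * q) * b := Nat.mul_le_mul_right _ h4
          _ = 460800 * (q * b) := by ring
          _ ≤ 460800 * (7 * (N * n ^ 2)) := Nat.mul_le_mul_left _ hg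
      have h8 : (5 * n ^ 2) * (n ^ 3 * b) ≤ (5 * n ^ 2) * (645120 * N) := by
        calc (5 * n ^ 2) * (n ^ 3 * b) = (5 * n ^ 5) * b := by ring
          _ ≤ 460800 * (7 * (N * n ^ 2)) := h7
          _ = (5 * n ^ 2) * (645120 * N) := by ring
      exact Nat.le_of_mul_le_mul_left h8 (by positivity)
    generalize n ^ 3 * b = B at h6 ⊢
    generalize n ^ 3 * S = Y at h ⊢
    generalize n ^ 6 = W at h ⊢
    omega

end

section
variable {n : ℕ} {H : Finset (Finset (Fin n))}

/-- the indicator of 14 edges in terms of the number of edges inside the image -/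
theorem XM_tri (hH : ∀ e ∈ H, e.card = 3) {x : Fin 6 → Fin n} (hx : Function.Injective x)
    (h : (H.filter fun e => e ⊆ univ.image x).card = 14) :
    XM (tri H) 14 (x 0) (x 1) (x 2) (x 3) (x 4) (x 5) = 1 := by
  rw [span6 hH hx] at h
  unfold XM
  rw [if_pos]
  unfold cnt
  simp only [Nat.add_eq]
  unfold sp6 at h
  exact h

theorem fiber_ge' (S : Finset (Fin n)) (hS : S.card = 6) :
    720 ≤ ((univ : Finset (Fin 6 → Fin n)).filter fun x => univ.image x = S).card := by
  have h1 : (univ : Finset (Fin 6 ↪ S)).card = 720 := by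
    rw [card_univ, Fintype.card_embedding_eq, Fintype.card_fin, Fintype.card_coe, hS]
    decide
  rw [← h1]
  refine card_le_card_of_injOn (fun e i => (e i : Fin n)) ?_ ?_
  · intro e _
    rw [mem_coe, mem_filter]
    refine ⟨mem_univ _, ?_⟩
    refine eq_of_subset_of_card_le ?_ ?_
    · intro v hv
      rw [mem_image] at hv
      obtain ⟨i, -, rfl⟩ := hv
      exact (e i).2
    · rw [card_image_of_injective _ (fun i j hij => e.injective (Subtype.ext hij)), hS]
      rfl
  · intro e _ e' _ he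
    ext i
    exact congrArg Fin.val (congrFun he i)

theorem le_sum_XM (hH : ∀ e ∈ H, e.card = 3) :
    720 * (((univ : Finset (Fin n)).powersetCard 6).filter fun S =>
      (H.filter fun e => e ⊆ S).card = 14).card ≤
      ∑ x : Fin 6 → Fin n, XM (tri H) 14 (x 0) (x 1) (x 2) (x 3) (x 4) (x 5) := by
  set TA := ((univ : Finset (Fin n)).powersetCard 6).filter fun S =>
      (H.filter fun e => e ⊆ S).card = 14 with hTA
  have h1 : ((univ : Finset (Fin 6 → Fin n)).filter fun x => univ.image x ∈ TA).card ≤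
      ∑ x : Fin 6 → Fin n, XM (tri H) 14 (x 0) (x 1) (x 2) (x 3) (x 4) (x 5) := by
    rw [card_filter]
    refine sum_le_sum fun x _ => ?_
    split_ifs with hx
    · rw [hTA, mem_filter, mem_powersetCard] at hx
      obtain ⟨⟨-, hc⟩, h14⟩ := hx
      have hxi : Function.Injective x := by
        have h1 : (univ.image x).card = (univ : Finset (Fin 6)).card := by rw [hc]; rfl
        have h2 := Finset.injOn_of_card_image_eq h1
        intro i j hij
        exact h2 (by simp) (by simp) hij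
      exact (XM_tri hH hxi h14).ge
    · exact Nat.zero_le _
  refine le_trans ?_ h1
  have hmap : ∀ x ∈ (univ : Finset (Fin 6 → Fin n)).filter (fun x => univ.image x ∈ TA),
      univ.image x ∈ TA := fun x hx => (mem_filter.mp hx).2
  rw [card_eq_sum_card_fiberwise hmap]
  rw [mul_comm, ← smul_eq_mul, ← sum_const]
  refine sum_le_sum fun S hS => ?_
  have hS6 : S.card = 6 := (mem_powersetCard.mp (mem_filter.mp hS).1).2
  refine le_trans (fiber_ge' S hS6) (card_le_card ?_)
  intro x hx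
  have hx2 := (mem_filter.mp hx).2
  exact mem_filter.mpr ⟨mem_filter.mpr ⟨mem_univ _, by rw [hx2]; exact hS⟩, hx2⟩

theorem core (hH : ∀ e ∈ H, e.card = 3) (hK : Pool.Agent.TH773.Turan34.K43Free H) :
    ∃ g : Fin n → Fin 3, n ^ 3 * (symmDiff H (Pool.Agent.TH773.Turan34.turan g)).card +
      2508226560000 * (((univ : Finset (Fin n)).powersetCard 6).filter fun S =>
        (H.filter fun e => e ⊆ S).card = 14).card ≤ 430080000 * n ^ 6 := by
  have hE := tri_sy H
  have hK' := tri_noK4 hH hK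
  have hA := T6.main hE hK'
  have hB := T7.main hE hK'
  have hN := le_sum_XM hH
  have hS : (∑ a, ∑ b, ∑ c, tri H a b c) = 6 * H.card := S3_tri hH
  have hSz : (∑ a, ∑ b, ∑ c, (tri H a b c : ℤ)) = 6 * (H.card : ℤ) := by exact_mod_cast hS
  have hNz : 720 * ((((univ : Finset (Fin n)).powersetCard 6).filter fun S =>
      (H.filter fun e => e ⊆ S).card = 14).card : ℤ) ≤
      ∑ x : Fin 6 → Fin n, (XM (tri H) 14 (x 0) (x 1) (x 2) (x 3) (x 4) (x 5) : ℤ) := by
    exact_mod_cast hN
  rw [hSz, Fintype.card_fin] at hA hB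
  generalize (∑ x : Fin 6 → Fin n, (XM (tri H) 14 (x 0) (x 1) (x 2) (x 3) (x 4) (x 5) : ℤ)) = X
    at hA hB hNz
  clear hN
  generalize (((univ : Finset (Fin n)).powersetCard 6).filter fun S =>
      (H.filter fun e => e ⊆ S).card = 14).card = N at hNz ⊢
  have hNT : (0 : ℤ) ≤ (NT (tri H) : ℤ) := by positivity
  have hD0 : (5832 : ℤ) * N ≤ (n : ℤ) ^ 6 := by nlinarith
  have hDn : 5832 * N ≤ n ^ 6 := by exact_mod_cast hD0
  obtain ⟨D, hD⟩ := Nat.exists_eq_add_of_le hDn
  have hDz : (n : ℤ) ^ 6 = 5832 * N + D := by exact_mod_cast hD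
  have hst : 1800 * (Fintype.card (Fin n) ^ 3 * (∑ a, ∑ b, ∑ c, tri H a b c)) + NT (tri H) ≤
      1000 * Fintype.card (Fin n) ^ 6 + 2000 * D := by
    rw [hS, Fintype.card_fin]
    have : (1800 : ℤ) * ((n : ℤ) ^ 3 * (6 * (H.card : ℤ))) + (NT (tri H) : ℤ) ≤
        1000 * (n : ℤ) ^ 6 + 2000 * D := by linarith
    exact_mod_cast this
  obtain ⟨g, hg⟩ := stabY hE hK' hst
  refine ⟨g, ?_⟩
  rw [hS, Fintype.card_fin] at hg
  have h1 := six_symm_le hH g
  have h2 := Nat.mul_le_mul_left (n ^ 3) h1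
  have hgz : (n : ℤ) ^ 3 * (bad (tri H) g : ℤ) + 1161216000 * ((n : ℤ) ^ 3 * (6 * (H.card : ℤ))) ≤
      645120000 * (n : ℤ) ^ 6 + 645120 * (2000 * (D : ℤ)) := by exact_mod_cast hg
  have h2z : (n : ℤ) ^ 3 * (6 * ((symmDiff H (Pool.Agent.TH773.Turan34.turan g)).card : ℤ)) ≤
      (n : ℤ) ^ 3 * (bad (tri H) g : ℤ) := by exact_mod_cast h2
  have hfin : (n : ℤ) ^ 3 * ((symmDiff H (Pool.Agent.TH773.Turan34.turan g)).card : ℤ) +
      2508226560000 * (N : ℤ) ≤ 430080000 * (n : ℤ) ^ 6 := by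
    linarith
  exact_mod_cast hfin

end
end Pool.Agent.Y850.FA
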